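import Pool.Agent.D0H4.BR.ExD

/-!
# Divisibility of the sums of Dade's invariant conjecture

`p` is a prime, `G` a normal subgroup of the finite group `E`, `Ē = E/G`, `n = |E|` and `m` the `p'`-part
of `n`.  Blocks of `G` are given by their central characters `B`, and `red` is a reduction map from the
algebraic integers to the field `F` of characteristic `p`.  `kdU p red G B d U σ` is `k_C(B, d, U)`, where
`σ` is the set of the members `≠ 1` of the chain `C`, and `radSum p G f = ∑_C (-1)^|C| f(C)`, over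
representatives of the `G`-classes of radical `p`-chains of `G` (the starting files
`Pool/Agent/N20/DI/Stm2.lean`, `Pool/Agent/N20/DI/Stm3.lean`), so that
`radSum p G (kdU p red G B d U)` is the sum of Q1.

A unit `u` modulo `n` with `u ≡ 1` modulo `m` is an element of the Galois group of `ℚ_n` over `ℚ_m`; it
maps `ψ(x)` to `ψ(x^u)` and fixes all blocks.

Outline of the proof.  `Ē_B × Gal` acts on the set of the `G`-classes of the pairs `(C, ψ)`,
`ψ ∈ Irr(N_G(C))` of defect `d` with `b(ψ)^G = B`, and preserves `|C|`.  `W/S` acts on the set of the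
classes whose stabiliser is exactly `S`, and no element `≠ 1` of `W/S` has a fixed point there.
-/

set_option autoImplicit false

open scoped Classical

namespace Pool.Agent.Results.MP_baa4d7_al.ExactInertialGroups

open Pool.Agent.N20.DI (InvBl kdU radSum)
open Pool.Agent.D0H4.BR (Be kEx)

variable {F : Type} [Field F]

/-- `U` is a normal subgroup of `W`. -/
def NormalIn {A : Type} [Group A] (U W : Subgroup A) : Prop :=
  U ≤ W ∧ ∀ w ∈ W, ∀ u ∈ U, w * u * w⁻¹ ∈ U

/-- `Γ` is a subgroup of the Galois group of `ℚ_n` over `ℚ_m`, `n = |E|`, `m` the `p'`-part of `n`: all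
elements `u` of `Γ` are `≡ 1` modulo `m`. -/
def Gal (p : ℕ) (E : Type) [Group E] (Γ : Subgroup (ZMod (Nat.card E))ˣ) : Prop :=
  ∀ u ∈ Γ, (u : ZMod (Nat.card E)).val ≡
    1 [MOD Nat.card E / p ^ (Nat.card E).factorization p]

/-- `W ≤ E/G × Γ` and the first components of the elements of `W` fix `B`. -/
def Admits {E : Type} [Group E] (G : Subgroup E) [G.Normal] (B : (G → F) → F)
    (Γ : Subgroup (ZMod (Nat.card E))ˣ) (W : Subgroup ((E ⧸ G) × (ZMod (Nat.card E))ˣ)) : Prop :=
  ∀ w ∈ W, w.2 ∈ Γ ∧ ∀ e : E, (e : E ⧸ G) = w.1 → Be G B e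

/-- Let `G` be a normal subgroup of the finite group `E`, `B` a block of `G` (or any function) and
`d ≥ 0`.
(1) If `W ≤ E/G` fixes `B` and `U` is normal in `W`, then the sum of Q1,
`∑_C (-1)^|C| k_C(B, d, U)`, is divisible by `|W : U|`.
(2) Let `Γ` be a subgroup of the Galois group of `ℚ_n` over `ℚ_m` (`n = |E|`, `m` its `p'`-part), let
`W` be a subgroup of `E/G × Γ` whose first components fix `B`, and let `S` be normal in `W`.  Then `|W : S|`
divides `∑_C (-1)^|C| k_C(S)`, where `k_C(S)` is the number of the `ψ ∈ Irr(N_G(C))` of defect `d` with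
`b(ψ)^G = B` such that the stabiliser of (the `G`-class of) `(C, ψ)` in `E/G × Γ` is exactly `S`; `(y, u)`
fixes `(C, ψ)` if some `h ∈ N_E(C)` with image `y` satisfies `ψ(h x h⁻¹) = ψ(x^u)` for all `x`. -/
theorem result (p : ℕ) [Fact p.Prime] (F : Type) [Field F] [CharP F p]
    (red : integralClosure ℤ ℂ →+* F) (E : Type) [Group E] [Finite E] (G : Subgroup E) [G.Normal]
    (B : (G → F) → F) (d : ℕ) :
    (∀ U W : Subgroup (E ⧸ G), NormalIn U W → InvBl G (W.comap (QuotientGroup.mk' G)) B →
      (U.relIndex W : ℤ) ∣ radSum p G (fun σ => (kdU p red G B d U σ : ℤ))) ∧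
    ∀ (Γ : Subgroup (ZMod (Nat.card E))ˣ) (S W : Subgroup ((E ⧸ G) × (ZMod (Nat.card E))ˣ)),
      Gal p E Γ → NormalIn S W → Admits G B Γ W →
      (S.relIndex W : ℤ) ∣ radSum p G (fun σ => (kEx p red G B d Γ S σ : ℤ)) :=
  ⟨fun _ _ h hB => Pool.Agent.D0H4.BR.q1_dvd red G B d hB h.1 h.2,
    fun _ _ _ hΓ h hW => Pool.Agent.D0H4.BR.ex_dvd red G B d hΓ (fun w hw => (hW w hw).1)
      (fun w hw => (hW w hw).2) h.1 h.2⟩

end Pool.Agent.Results.MP_baa4d7_al.ExactInertialGroups
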