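import Pool.Agent.D0H4.BR.GFin

/-!
# Dade's invariant conjecture modulo `q`: only the characters fixed by Galois `q`-groups count

`p` is a prime, `G` a normal subgroup of the finite group `E`, `Ē = E/G`, `U ≤ Ē`, `n = |E|` and `m` the
`p'`-part of `n`.  Blocks of `G` are given by their central characters `B` (`IsBlock`), `red` is a
reduction map from the algebraic integers to the algebraically closed field `F` of characteristic
`p`.  `sum p red G U B d` is `s_d(B, U) = ∑_C (-1)^|C| ∑_{V ≥ U} k_C(B, d, V)`, over representatives of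
the `G`-classes of radical `p`-chains of `G` (the starting result `OneInequality`); `DadeInv p red G` is
Q1 for `p`, `G`, `E` (all `B`, `d`, `U`).

The automorphism `ζ ↦ ζ^v` of the `n`-th cyclotomic field maps `ψ(x)` to `ψ(x^v)`.  `Exps p q n` is the
set of the exponents `v` prime to `n` with `v ≡ 1` modulo `m` and `v^(q^k) ≡ 1` modulo `n` for some `k`:
they give the Sylow `q`-subgroup of the Galois group of `ℚ_n` over `ℚ_m`.  `FixS S ψ`: `ψ(x^v) = ψ(x)` for
all `v` in `S` and all `x`.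

Outline of the proof.  The Galois group of `ℚ_n` over `ℚ_m` fixes the reduced central characters, so it
acts on the set of the `G`-classes of the pairs `(C, ψ)`, `ψ ∈ Irr(N_G(C))` of defect `d` with
`b(ψ)^G = B` and `N_Ē(C, ψ) ≥ U`, and preserves `C`; the class of `(C, ψ)` is fixed if and only if `ψ` is.
If `s_d(B, U)` grows more slowly than each power of `|G|` then `∑_d s_d(B, U)² ≤ 1` (`OneInequality`), and
`s_d(B, U) = 0` for all `d` as soon as the total sum is divisible by `q`.
-/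

set_option autoImplicit false

open scoped Classical

namespace Pool.Agent.Results.MP_baa4d7_al.GaloisFixedCharacters

open Pool.Agent.Y63.NV (IsBlock numDzBlock)
open Pool.Agent.Y63.AWC (IsIrreducibleCharacter)
open Pool.Agent.N20.DI (DadeInv HasDef radSum)
open Pool.Agent.R674.Tw (NG NEbar IndB)
open Pool.Agent.Results.MP_baa4d7_al.OneInequality (sum Cls All)
open Pool.Agent.D0H4.BR (Exps FixS)

variable {F : Type} [Field F]

/-- `s_d(B, U)` for the characters `ψ` with `ψ(x^v) = ψ(x)` for all `v` in `Exps p q |E|`: the sum of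
`(-1)^|C|` times the number of these `ψ ∈ Irr(N_G(C))` of defect `d` with `b(ψ)^G = B` and
`N_Ē(C, ψ) ≥ U`, over representatives of the `G`-classes of radical `p`-chains. -/
noncomputable def sumFix (p q : ℕ) (red : integralClosure ℤ ℂ →+* F) {E : Type} [Group E]
    (G : Subgroup E) [G.Normal] (U : Subgroup (E ⧸ G)) (B : (G → F) → F) (d : ℕ) : ℤ :=
  radSum p G (fun σ => (Nat.card {χ : NG G σ → ℂ // IsIrreducibleCharacter χ ∧
    (HasDef p d χ ∧ FixS (Exps p q (Nat.card E)) χ) ∧ U ≤ NEbar G σ χ ∧ IndB red G σ χ B} : ℤ))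

/-- The same sum for the characters of all defects. -/
noncomputable def totFix (p q : ℕ) (red : integralClosure ℤ ℂ →+* F) {E : Type} [Group E]
    (G : Subgroup E) [G.Normal] (U : Subgroup (E ⧸ G)) (B : (G → F) → F) : ℤ :=
  radSum p G (fun σ => (Nat.card {χ : NG G σ → ℂ // IsIrreducibleCharacter χ ∧
    FixS (Exps p q (Nat.card E)) χ ∧ U ≤ NEbar G σ χ ∧ IndB red G σ χ B} : ℤ))

/-- `q` divides `totFix` for all triples `(E, G, V)` in `X` with `O_p(G) = 1` and all blocks `B` of `G`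
with nontrivial defect groups. -/
def DvdTot (p q : ℕ) (red : integralClosure ℤ ℂ →+* F) (X : Cls) : Prop :=
  ∀ (E : Type) [Group E] [Finite E] (G : Subgroup E) [G.Normal] (V : Subgroup (E ⧸ G))
    (B : (G → F) → F), X E G V → (∀ P : Subgroup G, P.Normal → IsPGroup p P → P = ⊥) →
    IsBlock B → numDzBlock p red B = 0 → (q : ℤ) ∣ totFix p q red G V B

/-- Dade's invariant conjecture for all finite `E` and normal subgroups `G` with `E/G` in `𝒜`. -/
def Dade (p : ℕ) (red : integralClosure ℤ ℂ →+* F) (𝒜 : ∀ (A : Type) [Group A], Prop) : Prop :=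
  ∀ (E : Type) [Group E] [Finite E] (G : Subgroup E) [G.Normal], 𝒜 (E ⧸ G) → DadeInv p red G

/-- For each `ε > 0` there is `C` with `s_d(B, U) ≤ C |G|^ε` for all `d`, all blocks `B` with nontrivial
defect groups and all `E`, `G`, `U` with `E/G` in `𝒜` and `O_p(G) = 1`. -/
def Growth (p : ℕ) (red : integralClosure ℤ ℂ →+* F) (𝒜 : ∀ (A : Type) [Group A], Prop) : Prop :=
  ∀ ε : ℝ, 0 < ε → ∃ C : ℝ, All p red (fun E _ _ G _ _ => 𝒜 (E ⧸ G))
    (fun n s => ∀ d, (s d : ℝ) ≤ C * (n : ℝ) ^ ε)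

/-- `𝒜` is closed under isomorphisms. -/
def IsoClosed (𝒜 : ∀ (A : Type) [Group A], Prop) : Prop :=
  ∀ (A A' : Type) [Group A] [Group A'], (A ≃* A') → 𝒜 A → 𝒜 A'

/-- `χ(x^v) = χ(x)` for all `v` prime to `n` with `v ≡ 1` modulo `p m`, `m` the `p'`-part of `n`: for `n`
divisible by `|J|` this says that the values of the character `χ` lie in the field of the `p m`-th
roots of unity. -/
def AlmostRational (p n : ℕ) {J : Type} [Group J] (χ : J → ℂ) : Prop :=
  ∀ v : ℕ, v.Coprime n → v ≡ 1 [MOD p * (n / p ^ n.factorization p)] → ∀ x : J, χ (x ^ v) = χ x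

/-- `s_d(B, U) = ∑_C (-1)^|C| ∑_{V ≥ U} k_C(B, d, V)`.  Let `q` be a prime.
(1) For all `E`, `G`, `U`, `B`, `d`: modulo `q`, `s_d(B, U)` is congruent to the same sum for the characters
which are fixed by the Sylow `q`-subgroup of the Galois group of `ℚ_n` over `ℚ_m` (`n = |E|`, `m` its
`p'`-part); also for the sums over all defects.  For `q = p` these are the almost `p`-rational
characters, with values in `ℚ_{pm}`: `ψ(x^v) = ψ(x)` for all `v` prime to `n` with `v ≡ 1` modulo `pm`.
(2) Let `𝒜` be a class of groups closed under isomorphisms.  Dade's invariant conjecture holds for all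
finite groups `E` and normal subgroups `G` with `E/G` in `𝒜` if and only if, for these `E` and `G` with
`O_p(G) = 1` and blocks with nontrivial defect groups, for each `ε > 0` there is `C` such that
`s_d(B, U) ≤ C |G|^ε` for all `B`, `U`, `d`, and for all `B` and the perfect subgroups `V` of `E/G` the
total sum over these fixed characters is divisible by `q`.
(3) If all groups in `𝒜` are solvable, `V = 1` suffices in (2). -/
theorem result (p : ℕ) [Fact p.Prime] (F : Type) [Field F] [IsAlgClosed F] [CharP F p]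
    (red : integralClosure ℤ ℂ →+* F) (q : ℕ) (hq : q.Prime) :
    (∀ (E : Type) [Group E] [Finite E] (G : Subgroup E) [G.Normal] (U : Subgroup (E ⧸ G))
      (B : (G → F) → F),
      (∀ d : ℕ, (q : ℤ) ∣ sum p red G U B d - sumFix p q red G U B d) ∧
      (q : ℤ) ∣ (∑ᶠ d : ℕ, sum p red G U B d) - totFix p q red G U B) ∧
    (∀ (n : ℕ), n ≠ 0 → ∀ (J : Type) [Group J] [Finite J], Nat.card J ∣ n → ∀ χ : J → ℂ,
      FixS (Exps p p n) χ ↔ AlmostRational p n χ) ∧
    ∀ 𝒜 : ∀ (A : Type) [Group A], Prop, IsoClosed 𝒜 →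
      (Dade p red 𝒜 ↔ Growth p red 𝒜 ∧
        DvdTot p q red (fun E _ _ G _ V => 𝒜 (E ⧸ G) ∧ ⁅V, V⁆ = V)) ∧
      ((∀ (A : Type) [Group A], 𝒜 A → Group.IsSolvable A) → (Dade p red 𝒜 ↔ Growth p red 𝒜 ∧
        DvdTot p q red (fun E _ _ G _ V => 𝒜 (E ⧸ G) ∧ V = ⊥))) := by
  refine ⟨fun E _ _ G _ U B => ⟨fun d => Pool.Agent.D0H4.BR.sm_gal red G B U hq d,
    Pool.Agent.D0H4.BR.tot_gal red G B U hq⟩,
    fun n hn J _ _ hJ χ => Pool.Agent.D0H4.BR.fix_almost hn hJ χ, ?_⟩
  intro 𝒜 h𝒜
  have h0 := Pool.Agent.D0H4.BR.main_gal (p := p) red hq 𝒜 h𝒜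
  have h1 : Dade p red 𝒜 ↔ Growth p red 𝒜 ∧
        DvdTot p q red (fun E _ _ G _ V => 𝒜 (E ⧸ G) ∧ ⁅V, V⁆ = V) :=
    h0.trans (and_congr_right fun _ =>
      ⟨fun h E _ _ G _ V B hX h2 h3 h4 => h E G V B hX.1 hX.2 h2 h3 h4,
        fun h E _ _ G _ V B hA hV h2 h3 h4 => h E G V B ⟨hA, hV⟩ h2 h3 h4⟩)
  refine ⟨h1, fun hsol => h1.trans ?_⟩
  refine and_congr_right fun _ => ?_
  constructor
  · rintro h E _ _ G _ V B ⟨hA, rfl⟩ h2 h3 h4
    refine h E G ⊥ B ⟨hA, ?_⟩ h2 h3 h4
    exact Subgroup.commutator_bot_left _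
  · rintro h E _ _ G _ V B ⟨hA, hV⟩ h2 h3 h4
    have hS : Group.IsSolvable (E ⧸ G) := hsol _ hA
    refine h E G V B ⟨hA, ?_⟩ h2 h3 h4
    by_contra hne
    exact (Group.IsSolvable.commutator_lt_of_ne_bot hne).ne hV

end Pool.Agent.Results.MP_baa4d7_al.GaloisFixedCharacters
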