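import Pool.Agent.D0H4.BR.Pe
import Pool.Agent.Results.MP_baa4d7_al.GaloisFixedCharacters

/-!
# For odd `p`, Dade's invariant conjecture with `E/G` cyclic is a parity statement

`p` is an odd prime, blocks of `G` are given by their central characters `B` (`IsBlock`), `red` is a
reduction map from the algebraic integers to the algebraically closed field `F` of characteristic
`p`; `DadeInv p red G` is Q1 for `p`, `G`, `E` (all `B`, `d`, `U`).

`sumFix p 2 red ⊤ ⊥ B d` (from `GaloisFixedCharacters`, for `E = G = H`, `U = 1`, `q = 2`) is the sum of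
`(-1)^|C| n_d(C)` over representatives `C` of the classes of radical `p`-chains of `H`, where `n_d(C)` is
the number of `ψ ∈ Irr(N_H(C))` of defect `d` with `b(ψ)^H = B` and `ψ(x^v) = ψ(x)` for all `x` and all `v` in
`Exps p 2 |H|`: `v` prime to `n = |H|`, `v ≡ 1` modulo the `p'`-part `m` of `n`, and `v^(2^k) ≡ 1` modulo `n` for
some `k`, i.e. `ψ` is fixed by the Sylow `2`-subgroup of the Galois group of `ℚ_n` over `ℚ_m`.

Outline of the proof.  The cyclic case of Q1 follows from Dade's ordinary conjecture for sections of
`E` (a starting result).  Let `B` be a block of `H` with nontrivial defect groups and `s_d(B)` its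
alternating sums.  `H ≀ C₂` has a block above `B × B`, whose sums are quadratic polynomials in the
`s_d(B)`: if all the sums for `H` and for `H ≀ C₂` are divisible by `2^a`, then those for `H` are divisible
by `2^(a+1)`.  So all `s_d(B)` vanish if all the sums are even for all iterated wreath products.  The
blocks in these starting results are sets of characters given by a valuation ring of `ℂ`; here they
are identified with the central characters over `F`.  The parity of `s_d(B)` is the parity of the
number of fixed characters, as the Galois group acts on the classes of pairs `(C, ψ)`.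
-/

set_option autoImplicit false

open scoped Classical

namespace Pool.Agent.Results.MP_baa4d7_al.ParityOfFixedCharacters

open Pool.Agent.Y63.NV (IsBlock numDzBlock)
open Pool.Agent.N20.DI (DadeInv)
open Pool.Agent.Results.MP_baa4d7_al.GaloisFixedCharacters (sumFix)

variable {F : Type} [Field F]

/-- `𝒳` is closed under subgroups, homomorphic images and `A ↦ A ≀ C₂`. -/
def Closed (𝒳 : ∀ (A : Type) [Group A], Prop) : Prop :=
  (∀ (A : Type) [Group A] (K : Subgroup A), 𝒳 A → 𝒳 K) ∧
  (∀ (A Q : Type) [Group A] [Group Q] (π : A →* Q), Function.Surjective π → 𝒳 A → 𝒳 Q) ∧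
  ∀ (A : Type) [Group A], 𝒳 A → 𝒳 (Pool.Agent.Q90.WR.Wr A)

/-- Dade's invariant conjecture for the finite groups `E` in `𝒳` and all normal subgroups `G` of `E`
with `E/G` cyclic. -/
def Cyclic (p : ℕ) (red : integralClosure ℤ ℂ →+* F) (𝒳 : ∀ (A : Type) [Group A], Prop) : Prop :=
  ∀ (E : Type) [Group E] [Finite E] (G : Subgroup E) [G.Normal], 𝒳 E → IsCyclic (E ⧸ G) →
    DadeInv p red G

/-- For all finite groups `H` in `𝒳` with `O_p(H) = 1`, all blocks `B` of `H` with nontrivial defect
groups and all `d`, the sum for the fixed characters of defect `d` is even. -/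
def Parity (p : ℕ) (red : integralClosure ℤ ℂ →+* F) (𝒳 : ∀ (A : Type) [Group A], Prop) : Prop :=
  ∀ (H : Type) [Group H] [Finite H], 𝒳 H →
    (∀ P : Subgroup (⊤ : Subgroup H), P.Normal → IsPGroup p P → P = ⊥) →
    ∀ B : ((⊤ : Subgroup H) → F) → F, IsBlock B → numDzBlock p red B = 0 →
      ∀ d : ℕ, Even (sumFix p 2 red (⊤ : Subgroup H) ⊥ B d)

/-- Let `p` be odd and let `𝒳` be a class of groups closed under subgroups, homomorphic images and
wreath products with `C₂` (for example all groups).  Dade's invariant conjecture holds for all finite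
`E` in `𝒳` and all normal subgroups `G` with `E/G` cyclic if and only if, for all finite `H` in `𝒳` with
`O_p(H) = 1`, all blocks `B` of `H` with nontrivial defect groups and all `d`, the number of the
`H`-classes of pairs `(C, ψ)` is even, where `C` is a radical `p`-chain of `H`, `ψ ∈ Irr(N_H(C))` has defect
`d`, `b(ψ)^H = B` and `ψ` is fixed by the Sylow `2`-subgroup of the Galois group of `ℚ_n` over `ℚ_m`. -/
theorem result (p : ℕ) [Fact p.Prime] (hp : p ≠ 2) (F : Type) [Field F] [IsAlgClosed F]
    [CharP F p] (red : integralClosure ℤ ℂ →+* F) (𝒳 : ∀ (A : Type) [Group A], Prop)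
    (h𝒳 : Closed 𝒳) : Cyclic p red 𝒳 ↔ Parity p red 𝒳 := by
  refine (Pool.Agent.D0H4.BR.main_par (p := p) red hp h𝒳).trans ?_
  refine forall_congr' fun H => forall_congr' fun _ => forall_congr' fun _ =>
    imp_congr_right fun _ => imp_congr_right fun _ => forall_congr' fun B =>
      imp_congr_right fun _ => imp_congr_right fun _ => forall_congr' fun d => ?_
  exact even_iff_two_dvd.symm

end Pool.Agent.Results.MP_baa4d7_al.ParityOfFixedCharacters
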