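import Pool.Agent.D0H4.BR.Fin

/-!
# Dade's invariant conjecture: marks of finite sets, congruences, perfect inertial groups suffice

`p` is a prime, `G` a normal subgroup of the finite group `E`, `Ē = E/G`, `U ≤ Ē`.  Blocks of `G` are
given by their central characters `B` (`IsBlock`), `red` is a reduction map from the algebraic
integers to the algebraically closed field `F` of characteristic `p`.  `sum p red G U B d` is
`s_d(B, U) = ∑_C (-1)^|C| ∑_{V ≥ U} k_C(B, d, V)`, over representatives of the `G`-classes of radical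
`p`-chains of `G` (the starting result `OneInequality`); `DadeInv p red G` is Q1 for `p`, `G`, `E` (all
`B`, `d`, `U`).  `All p red X Q`: `Q |G| (d ↦ s_d(B, U))` holds for all triples `(E, G, U)` in the class
`X` with `O_p(G) = 1` and all blocks `B` of `G` with nontrivial defect groups.
`InvBl G K B`: conjugation with the elements of `K` fixes `B`.

Outline of the proof.  Let `X` be the set of the `G`-classes of the pairs `(C, ψ)`, `C` a chain,
`ψ ∈ Irr(N_G(C))` of defect `d` with `b(ψ)^G = B`.  `U` acts on `X` if it fixes `B`; `V ≤ U` fixes the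
class of `(C, ψ)` if and only if `V ≤ N_Ē(C, ψ)`; so `s_d(B, V)` is the number of the fixed points of `V`
on the classes with `|C|` even minus that with `|C|` odd.  If `U/V` is a `q`-group, the other points of
`X^V` form orbits of `U` of lengths divisible by `q`.  If `s_d(B, U)` grows more slowly than each power of
`|G|`, then `∑_d s_d(B, U)² ≤ 1` (squares of `G`), so `s_d(B, U) = 0` if it is divisible by `q`, and also
if `∑_d s_d(B, U) = 0`.
-/

set_option autoImplicit false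

open scoped Classical

namespace Pool.Agent.Results.MP_baa4d7_al.PerfectInertialGroups

open Pool.Agent.Y63.NV (IsBlock numDzBlock)
open Pool.Agent.N20.DI (InvBl DadeInv radSum)
open Pool.Agent.R674.Tw (kGe)
open Pool.Agent.Results.MP_baa4d7_al.OneInequality (sum Cls All)

variable {F : Type} [Field F]

/-- `V` is normal in `U` and `U/V` is a `q`-group. -/
def QQuot (q : ℕ) {A : Type} [Group A] (V U : Subgroup A) : Prop :=
  V ≤ U ∧ (∀ u ∈ U, ∀ v ∈ V, u * v * u⁻¹ ∈ V) ∧ ∀ u ∈ U, ∃ k : ℕ, u ^ q ^ k ∈ V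

/-- The function `f` of the subgroups `V ≤ U` is given by the marks `|X₀^V| - |X₁^V|` of two finite sets
with an action of `U`. -/
def IsMark {A : Type} [Group A] (U : Subgroup A) (f : Subgroup A → ℤ) : Prop :=
  ∃ (X₀ X₁ : Type) (_ : Finite X₀) (_ : Finite X₁) (_ : MulAction U X₀) (_ : MulAction U X₁),
    ∀ V ≤ U, f V = (Nat.card {x : X₀ // ∀ u : U, u.1 ∈ V → u • x = x} : ℤ) -
      Nat.card {x : X₁ // ∀ u : U, u.1 ∈ V → u • x = x}

/-- `U ≤ E/G` fixes `B`. -/
def Fixed {E : Type} [Group E] (G : Subgroup E) [G.Normal] (U : Subgroup (E ⧸ G))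
    (B : (G → F) → F) : Prop := InvBl G (U.comap (QuotientGroup.mk' G)) B

/-- `∑_d s_d(B, U)`. -/
noncomputable def total (p : ℕ) (red : integralClosure ℤ ℂ →+* F) {E : Type} [Group E]
    (G : Subgroup E) [G.Normal] (U : Subgroup (E ⧸ G)) (B : (G → F) → F) : ℤ :=
  ∑ᶠ d : ℕ, sum p red G U B d

/-- `p` divides `|⟨e⟩ ∩ G|` for all `e ∈ E` whose images generate the cyclic group `V ≤ E/G`. -/
def Singular (p : ℕ) {E : Type} [Group E] (G : Subgroup E) [G.Normal] (V : Subgroup (E ⧸ G)) :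
    Prop :=
  IsCyclic V ∧ ∀ e : E, Subgroup.zpowers (e : E ⧸ G) = V →
    p ∣ Nat.card ↥(Subgroup.zpowers e ⊓ G)

/-- `p` divides `|⟨e⟩ ∩ G|` for all `e ∈ E` outside `G` with image in `U`. -/
def NonSplit (p : ℕ) {E : Type} [Group E] (G : Subgroup E) [G.Normal] (U : Subgroup (E ⧸ G)) :
    Prop :=
  ∀ e : E, e ∉ G → (e : E ⧸ G) ∈ U → p ∣ Nat.card ↥(Subgroup.zpowers e ⊓ G)

/-- Dade's invariant conjecture for all finite `E` and normal subgroups `G` with `E/G` in `𝒜`. -/
def Dade (p : ℕ) (red : integralClosure ℤ ℂ →+* F) (𝒜 : ∀ (A : Type) [Group A], Prop) : Prop :=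
  ∀ (E : Type) [Group E] [Finite E] (G : Subgroup E) [G.Normal], 𝒜 (E ⧸ G) → DadeInv p red G

/-- For each `ε > 0` there is `C` with `s_d(B, U) ≤ C |G|^ε` for all `d`, all blocks `B` with nontrivial
defect groups and all `E`, `G`, `U` with `E/G` in `𝒜` and `O_p(G) = 1`. -/
def Growth (p : ℕ) (red : integralClosure ℤ ℂ →+* F) (𝒜 : ∀ (A : Type) [Group A], Prop) : Prop :=
  ∀ ε : ℝ, 0 < ε → ∃ C : ℝ, All p red (fun E _ _ G _ _ => 𝒜 (E ⧸ G))
    (fun n s => ∀ d, (s d : ℝ) ≤ C * (n : ℝ) ^ ε)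

/-- `𝒜` is closed under isomorphisms. -/
def IsoClosed (𝒜 : ∀ (A : Type) [Group A], Prop) : Prop :=
  ∀ (A A' : Type) [Group A] [Group A'], (A ≃* A') → 𝒜 A → 𝒜 A'

/-- `s_d(B, U) = ∑_C (-1)^|C| ∑_{V ≥ U} k_C(B, d, V)`.
(1) Let the block `B` of `G` be fixed by `U ≤ E/G`.  For each `d` there are finite sets `X₀`, `X₁` with
an action of `U` such that `s_d(B, V) = |X₀^V| - |X₁^V|` for all `V ≤ U`.  If `B` is not fixed by `U`,
then `s_d(B, U) = 0` for all `d`.  `∑_d s_d(B, U)` is the sum of `(-1)^|C|` times the number of the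
`ψ ∈ Irr(N_G(C))` with `b(ψ)^G = B` and `N_Ē(C, ψ) ≥ U`.  If `U` fixes `B`, then `|U|` divides
`∑_{u ∈ U} ∑_d s_d(B, ⟨u⟩)`; if moreover `p` divides `|⟨e⟩ ∩ G|` for all `e ∈ E` outside `G` with image in
`U`, then `|U|` divides `∑_d s_d(B, 1) = ∑_C (-1)^|C| k(N_G(C), B)`.
(2) Let `q` be a prime, `V` normal in `U` and `U/V` a `q`-group.  Then `s_d(B, U) ≡ s_d(B, V)` modulo `q`
for each block `B` fixed by `U`; and for each block `B`, if `s_d(B, V) = 0` then `q ∣ s_d(B, U)`.  If `V` is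
cyclic and `p` divides `|⟨e⟩ ∩ G|` for all `e ∈ E` whose images generate `V`, then `∑_d s_d(B, U)` is
divisible by `q` for each block `B`.  If Dade's ordinary conjecture (the invariant one for `E = G`) holds
for all finite groups and `V` is cyclic, then all `s_d(B, U)` are divisible by `q` for the blocks `B` with
nontrivial defect groups.
(3) Let `𝒜` be a class of groups closed under isomorphisms.  Dade's invariant conjecture holds for all
finite groups `E` and normal subgroups `G` with `E/G` in `𝒜` if and only if, for these `E` and `G` with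
`O_p(G) = 1` and blocks with nontrivial defect groups, for each `ε > 0` there is `C` such that
`s_d(B, U) ≤ C |G|^ε` for all `B`, `U`, `d`, and `∑_d s_d(B, V) = 0` for all `B` and the perfect
subgroups `V` of `E/G`.
(4) If all groups in `𝒜` are solvable, `V = 1` suffices. -/
theorem result (p : ℕ) [Fact p.Prime] (F : Type) [Field F] [IsAlgClosed F] [CharP F p]
    (red : integralClosure ℤ ℂ →+* F) :
    (∀ (E : Type) [Group E] [Finite E] (G : Subgroup E) [G.Normal] (U : Subgroup (E ⧸ G))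
      (B : (G → F) → F), IsBlock B →
      (Fixed G U B → ∀ d : ℕ, IsMark U fun V => sum p red G V B d) ∧
      (¬ Fixed G U B → ∀ d : ℕ, sum p red G U B d = 0) ∧
      total p red G U B = radSum p G (fun σ => (kGe red G B U σ : ℤ)) ∧
      (Fixed G U B → (Nat.card U : ℤ) ∣ ∑ᶠ u : U, total p red G (Subgroup.zpowers u.1) B) ∧
      (Fixed G U B → NonSplit p G U → (Nat.card U : ℤ) ∣ total p red G ⊥ B)) ∧
    (∀ (E : Type) [Group E] [Finite E] (G : Subgroup E) [G.Normal] (q : ℕ)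
      (V U : Subgroup (E ⧸ G)) (B : (G → F) → F), q.Prime → QQuot q V U → IsBlock B →
      (Fixed G U B → ∀ d : ℕ, (q : ℤ) ∣ sum p red G V B d - sum p red G U B d) ∧
      (∀ d : ℕ, sum p red G V B d = 0 → (q : ℤ) ∣ sum p red G U B d) ∧
      (Singular p G V → (q : ℤ) ∣ total p red G U B) ∧
      (IsCyclic V → (∀ (H : Type) [Group H] [Finite H], DadeInv p red (⊤ : Subgroup H)) →
        numDzBlock p red B = 0 → ∀ d : ℕ, (q : ℤ) ∣ sum p red G U B d)) ∧
    ∀ 𝒜 : ∀ (A : Type) [Group A], Prop, IsoClosed 𝒜 →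
      (Dade p red 𝒜 ↔ Growth p red 𝒜 ∧
        All p red (fun E _ _ G _ V => 𝒜 (E ⧸ G) ∧ ⁅V, V⁆ = V) (fun _ s => ∑ᶠ d : ℕ, s d = 0)) ∧
      ((∀ (A : Type) [Group A], 𝒜 A → Group.IsSolvable A) → (Dade p red 𝒜 ↔ Growth p red 𝒜 ∧
        All p red (fun E _ _ G _ V => 𝒜 (E ⧸ G) ∧ V = ⊥) (fun _ s => ∑ᶠ d : ℕ, s d = 0))) := by
  refine ⟨fun E _ _ G _ U B hBl => ⟨fun hB d => Pool.Agent.D0H4.BR.sm_marks red G B hB d,
    fun hB d => Pool.Agent.D0H4.BR.sm_zero red G hBl hB d,
    Pool.Agent.D0H4.BR.sm_rad red G B U, fun hB => Pool.Agent.D0H4.BR.tot_burn red G B hB,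
    fun hB hs => Pool.Agent.D0H4.BR.tot_nonsplit red G hBl hB hs⟩, ?_, ?_⟩
  · rintro E _ _ G _ q V U B hq ⟨hVU, hn, hk⟩ hBl
    refine ⟨fun hB d => Pool.Agent.D0H4.BR.sm_congr red G B hB hVU hn hq hk d,
      fun d h => Pool.Agent.D0H4.BR.sm_dvd red G hBl hVU hn hq hk d h,
      fun hV => Pool.Agent.D0H4.BR.tot_dvd red G hBl hVU hn hq hk
        (Pool.Agent.D0H4.BR.tot_sing red G hBl hV.1 hV.2),
      fun hV hD hB0 d => Pool.Agent.D0H4.BR.sm_dvd red G hBl hVU hn hq hk d
        (Pool.Agent.D0H4.BR.sm_cyclic red G hD hBl hB0 hV d)⟩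
  · intro 𝒜 h𝒜
    have h1 := Pool.Agent.D0H4.BR.main_equiv (p := p) red 𝒜 h𝒜
    refine ⟨h1, fun hsol => h1.trans ?_⟩
    refine and_congr_right fun _ => ?_
    constructor
    · rintro h E _ _ G _ V B ⟨hA, rfl⟩ h2 h3 h4
      refine h E G ⊥ B ⟨hA, ?_⟩ h2 h3 h4
      exact Subgroup.commutator_bot_left _
    · rintro h E _ _ G _ V B ⟨hA, hV⟩ h2 h3 h4
      have hS : Group.IsSolvable (E ⧸ G) := hsol _ hA
      refine h E G V B ⟨hA, ?_⟩ h2 h3 h4
      by_contra hne
      exact (Group.IsSolvable.commutator_lt_of_ne_bot hne).ne hV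

end Pool.Agent.Results.MP_baa4d7_al.PerfectInertialGroups
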